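import Pool.Agent.N848.SM.Stm
import Pool.Agent.N883.FF.Den3
import Pool.Agent.TH942.Count

set_option autoImplicit false
set_option linter.unusedVariables false

/-!
# Project SM: the number of the cube-free primary elements

Part SM/CNT of project SM (helper848), written by helper284.
-/

open scoped Classical

namespace Pool.Agent.N284.SM

open Finset Filter Topology
open Pool.Agent.Y692.QS (Ei w nr toC toC_normSq toC_inj)
open Pool.Agent.Y699.E (nrm ZB mem_ZB nrm_cast nrm_eq' prm)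
open Pool.Agent.N883.FF (ClP den3)
open Pool.Agent.N883.FF.Den3 (G q0 q0_ne CF CF_sub diff_card card_CF prm_per nine_ne)

/-- the elements of the disc -/
def Dk (y : ℝ) : Set Ei := {a | ‖toC a‖ ≤ y}

theorem norm_sq (a : Ei) : ‖toC a‖ ^ 2 = nrm a := by
  rw [← Complex.normSq_eq_norm_sq, toC_normSq, ← nrm_cast]
  norm_cast

theorem norm_sq' (a : Ei) : ‖toC a‖ ^ 2 = (a.re : ℝ) ^ 2 - a.re * a.im + (a.im : ℝ) ^ 2 := by
  rw [norm_sq]
  exact_mod_cast nrm_eq' a

theorem norm_pos {m : Ei} (hm : m ≠ 0) : 0 < ‖toC m‖ := by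
  rw [norm_pos_iff]
  intro h
  exact hm (toC_inj (by rw [h, map_zero]))

theorem Dk_fin (y : ℝ) : (Dk y).Finite := by
  refine (ZB ⌈y ^ 2⌉₊).finite_toSet.subset ?_
  intro a ha
  rw [mem_coe, mem_ZB]
  have h1 : (nrm a : ℝ) ≤ y ^ 2 := by
    rw [← norm_sq]
    exact pow_le_pow_left₀ (norm_nonneg _) ha 2
  have h2 : (nrm a : ℝ) ≤ (⌈y ^ 2⌉₊ : ℕ) := h1.trans (Nat.le_ceil _)
  exact_mod_cast h2

/-- coordinates -/
def eqv : Ei ≃ (Fin 2 → ℤ) where
  toFun a := ![a.re, a.im]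
  invFun c := ⟨c 0, c 1⟩
  left_inv a := rfl
  right_inv c := by
    funext i
    fin_cases i <;> rfl

theorem disc_lim : ∃ κ : ℝ,
    Tendsto (fun y : ℝ => ((Dk y).ncard : ℝ) / y ^ 2) atTop (𝓝 κ) := by
  set M : Matrix (Fin 2) (Fin 2) ℝ := !![1, -1 / 2; 0, √3 / 2] with hM
  have hdet : M.det ≠ 0 := by
    rw [hM, Matrix.det_fin_two_of]
    have : 0 < √(3:ℝ) := by positivity
    intro h
    nlinarith
  have h := Pool.Agent.TH942.count_ell hdet
  refine ⟨_, h.congr fun y => ?_⟩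
  rw [Fintype.card_fin]
  congr 2
  rw [← Nat.card_coe_set_eq]
  refine (Nat.card_congr (Equiv.subtypeEquiv eqv fun a => ?_)).symm
  have h1 : ‖Pool.Agent.TH942.emb M (fun i => ((eqv a i : ℤ) : ℝ))‖ = ‖toC a‖ := by
    rw [← sq_eq_sq₀ (norm_nonneg _) (norm_nonneg _), Pool.Agent.TH942.emb_sq, norm_sq',
      Fin.sum_univ_two, Matrix.mulVec, Matrix.mulVec]
    simp only [hM, dotProduct, Fin.sum_univ_two, eqv, Equiv.coe_fn_mk]
    simp only [Matrix.cons_val_zero, Matrix.cons_val_one, Matrix.of_apply, Matrix.cons_val']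
    have h3 : √(3:ℝ) ^ 2 = 3 := Real.sq_sqrt (by norm_num)
    simp
    linear_combination (1 / 4 * (a.im : ℝ) ^ 2) * h3
  show ‖toC a‖ ≤ y ↔ _
  rw [← h1]

theorem class_lim {κ : ℝ} (hκ : Tendsto (fun y : ℝ => ((Dk y).ncard : ℝ) / y ^ 2) atTop (𝓝 κ))
    {m : Ei} (hm : m ≠ 0) (r : Ei) :
    Tendsto (fun y : ℝ => ({a : Ei | m ∣ a - r ∧ ‖toC a‖ ≤ y}.ncard : ℝ) / y ^ 2) atTop
      (𝓝 (κ / ‖toC m‖ ^ 2)) := by
  have hμ : 0 < ‖toC m‖ := norm_pos hm
  have key : ∀ s : ℝ, Tendsto (fun y : ℝ => ((Dk ((y + s) / ‖toC m‖)).ncard : ℝ) / y ^ 2) atTop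
      (𝓝 (κ / ‖toC m‖ ^ 2)) := by
    intro s
    have h1 : Tendsto (fun y : ℝ => (y + s) / ‖toC m‖) atTop atTop :=
      (tendsto_atTop_add_const_right _ s tendsto_id).atTop_div_const hμ
    have h2 := hκ.comp h1
    have h3 : Tendsto (fun y : ℝ => (1 + s / y) ^ 2 / ‖toC m‖ ^ 2) atTop
        (𝓝 ((1 + 0) ^ 2 / ‖toC m‖ ^ 2)) :=
      ((tendsto_const_nhds.add (tendsto_const_nhds.div_atTop tendsto_id)).pow 2).div_const _
    have h4 := h2.mul h3
    have h5 : κ * ((1 + 0) ^ 2 / ‖toC m‖ ^ 2) = κ / ‖toC m‖ ^ 2 := by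
      rw [add_zero, one_pow, mul_one_div]
    rw [h5] at h4
    refine h4.congr' ?_
    filter_upwards [eventually_gt_atTop 0, eventually_gt_atTop (-s)] with y hy hys
    have h6 : 0 < y + s := by linarith
    simp only [Function.comp]
    field_simp
  have fin : ∀ y : ℝ, {a : Ei | m ∣ a - r ∧ ‖toC a‖ ≤ y}.Finite := fun y =>
    (Dk_fin y).subset fun a ha => ha.2
  refine tendsto_of_tendsto_of_tendsto_of_le_of_le' (key (-‖toC r‖)) (key ‖toC r‖) ?_ ?_
  · filter_upwards with y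
    refine div_le_div_of_nonneg_right ?_ (sq_nonneg _)
    have h1 : (Dk ((y + -‖toC r‖) / ‖toC m‖)).ncard ≤
        {a : Ei | m ∣ a - r ∧ ‖toC a‖ ≤ y}.ncard := by
      refine Set.ncard_le_ncard_of_injOn (fun b => m * b + r) ?_ ?_ (fin y)
      · intro b hb
        refine ⟨⟨b, by ring⟩, ?_⟩
        have h2 : ‖toC b‖ ≤ (y + -‖toC r‖) / ‖toC m‖ := hb
        rw [le_div_iff₀ hμ] at h2
        rw [map_add, map_mul]
        refine (norm_add_le _ _).trans ?_
        rw [norm_mul]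
        linarith
      · intro b _ b' _ hbb
        have h2 : m * b = m * b' := add_right_cancel hbb
        exact mul_left_cancel₀ hm h2
    exact_mod_cast h1
  · filter_upwards with y
    refine div_le_div_of_nonneg_right ?_ (sq_nonneg _)
    have h1 : {a : Ei | m ∣ a - r ∧ ‖toC a‖ ≤ y}.ncard ≤
        (Dk ((y + ‖toC r‖) / ‖toC m‖)).ncard := by
      have h2 : {a : Ei | m ∣ a - r ∧ ‖toC a‖ ≤ y} ⊆
          (fun b => m * b + r) '' Dk ((y + ‖toC r‖) / ‖toC m‖) := by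
        rintro a ⟨⟨b, hb⟩, ha⟩
        refine ⟨b, ?_, by
          show m * b + r = a
          rw [← hb]; ring⟩
        show ‖toC b‖ ≤ _
        rw [le_div_iff₀ hμ, mul_comm, ← norm_mul, ← map_mul, ← hb, map_sub]
        exact (norm_sub_le _ _).trans (by linarith)
      exact (Set.ncard_le_ncard h2 ((Dk_fin _).image _)).trans (Set.ncard_image_le (Dk_fin _))
    exact_mod_cast h1

theorem per_lim {κ : ℝ} (hκ : Tendsto (fun y : ℝ => ((Dk y).ncard : ℝ) / y ^ 2) atTop (𝓝 κ))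
    {m : Ei} (hm : m ≠ 0) {A : Ei → Prop} (hA : ∀ a b, m ∣ a - b → A a → A b) :
    ∃ c : ℝ, Tendsto (fun y : ℝ => (((Dk_fin y).toFinset.filter A).card : ℝ) / y ^ 2) atTop
      (𝓝 c) := by
  have : Finite (Ei ⧸ Ideal.span {m}) := Pool.Agent.Y715.T.Rs.fin_quo hm
  let _ := Fintype.ofFinite (Ei ⧸ Ideal.span {m})
  have hsj := Ideal.Quotient.mk_surjective (I := Ideal.span {m})
  obtain ⟨rep, hrep⟩ : ∃ rep : Ei ⧸ Ideal.span {m} → Ei,
      ∀ q, Ideal.Quotient.mk (Ideal.span {m}) (rep q) = q :=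
    ⟨Function.surjInv hsj, Function.surjInv_eq hsj⟩
  have hmk : ∀ a q, Ideal.Quotient.mk (Ideal.span {m}) a = q ↔ m ∣ a - rep q := by
    intro a q
    conv_lhs => rw [← hrep q]
    rw [Ideal.Quotient.eq, Ideal.mem_span_singleton]
  refine ⟨∑ q : Ei ⧸ Ideal.span {m}, if A (rep q) then κ / ‖toC m‖ ^ 2 else 0, ?_⟩
  have h1 : ∀ y : ℝ, (((Dk_fin y).toFinset.filter A).card : ℝ) / y ^ 2 =
      ∑ q : Ei ⧸ Ideal.span {m}, if A (rep q) then
        ({a : Ei | m ∣ a - rep q ∧ ‖toC a‖ ≤ y}.ncard : ℝ) / y ^ 2 else 0 := by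
    intro y
    rw [card_eq_sum_card_fiberwise (f := Ideal.Quotient.mk (Ideal.span {m})) (t := univ)
      (fun _ _ => mem_coe.2 (mem_univ _)), Nat.cast_sum, sum_div]
    refine sum_congr rfl fun q _ => ?_
    split_ifs with hq
    · congr 2
      rw [← Set.ncard_coe_finset]
      congr 1
      ext a
      rw [mem_coe, mem_filter, mem_filter, Set.Finite.mem_toFinset, hmk]
      constructor
      · rintro ⟨⟨h2, h3⟩, h4⟩
        exact ⟨h4, h2⟩
      · rintro ⟨h2, h3⟩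
        exact ⟨⟨h3, hA _ _ (by rw [← neg_sub]; exact dvd_neg.2 h2) hq⟩, h2⟩
    · have h2 : (((Dk_fin y).toFinset.filter A).filter
          fun a => Ideal.Quotient.mk (Ideal.span {m}) a = q) = ∅ := by
        refine filter_eq_empty_iff.2 fun a ha h3 => hq ?_
        rw [mem_filter] at ha
        exact hA _ _ ((hmk a q).1 h3) ha.2
      rw [h2, card_empty, Nat.cast_zero, zero_div]
  simp_rw [h1]
  refine tendsto_finsetSum _ fun q _ => ?_
  split_ifs with hq
  · exact class_lim hκ hm (rep q)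
  · exact tendsto_const_nhds

theorem ZB_eq (X : ℕ) : ZB X = (Dk_fin (√(X:ℝ))).toFinset := by
  ext a
  rw [mem_ZB, Set.Finite.mem_toFinset]
  show _ ↔ ‖toC a‖ ≤ √(X:ℝ)
  rw [Real.le_sqrt (norm_nonneg _) (Nat.cast_nonneg _), norm_sq]
  norm_cast

theorem G_lim (P : ℕ) : ∃ c : ℝ,
    Tendsto (fun X : ℕ => (((ZB X).filter (G P)).card : ℝ) / X) atTop (𝓝 c) := by
  obtain ⟨κ, hκ⟩ := disc_lim
  have hG : ∀ a b : Ei, (9 : Ei) * q0 P ∣ a - b → G P a → G P b := by
    intro a b hab h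
    have h9 : (9 : Ei) ∣ a - b := (dvd_mul_right _ _).trans hab
    have h0 : q0 P ∣ a - b := (dvd_mul_left _ _).trans hab
    refine ⟨prm_per h9 h.1, fun π hπ hd => h.2 π hπ ?_⟩
    have h2 : π ^ 3 ∣ q0 P := dvd_prod_of_mem (fun π => π ^ 3) hπ
    have h3 : a = (a - b) + b := by ring
    rw [h3]
    exact dvd_add (h2.trans h0) hd
  obtain ⟨c, hc⟩ := per_lim hκ (mul_ne_zero nine_ne (q0_ne P)) hG
  refine ⟨c, ?_⟩
  have h1 : Tendsto (fun X : ℕ => √(X:ℝ)) atTop atTop :=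
    Real.tendsto_sqrt_atTop.comp tendsto_natCast_atTop_atTop
  refine (hc.comp h1).congr fun X => ?_
  simp only [Function.comp]
  rw [Real.sq_sqrt (Nat.cast_nonneg _), ZB_eq]

theorem t_CNT : Pool.Agent.N848.SM.S_CNT := by
  obtain ⟨C, hC, hD⟩ := diff_card
  have hcau : CauchySeq fun X : ℕ => ((CF X).card : ℝ) / X := by
    rw [Metric.cauchySeq_iff]
    intro ε hε
    obtain ⟨P, hP⟩ := exists_nat_ge (4 * C / ε + 1)
    have hP1 : 1 ≤ P := by
      have : (1 : ℝ) ≤ P := le_trans (by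
        have : 0 ≤ 4 * C / ε := by positivity
        linarith) hP
      exact_mod_cast this
    have hP0 : (0 : ℝ) < P := by exact_mod_cast hP1
    have hCP : C / P ≤ ε / 4 := by
      rw [div_le_iff₀ hP0]
      have h3 : 4 * C / ε ≤ P := by linarith
      rw [div_le_iff₀ hε] at h3
      linarith
    obtain ⟨c, hc⟩ := G_lim P
    rw [Metric.tendsto_atTop] at hc
    obtain ⟨X₀, hX₀⟩ := hc (ε / 8) (by positivity)
    have key : ∀ X, max X₀ 1 ≤ X → |((CF X).card : ℝ) / X - c| ≤ ε / 4 + ε / 8 := by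
      intro X hX
      have h1 := hX₀ X ((le_max_left _ _).trans hX)
      rw [Real.dist_eq] at h1
      have hX1 : 1 ≤ X := (le_max_right _ _).trans hX
      have hX0 : (0 : ℝ) < X := by exact_mod_cast hX1
      have h2 := hD X P hP1
      have h3 : ((((ZB X).filter (G P)) \ CF X).card : ℝ) =
          (((ZB X).filter (G P)).card : ℝ) - ((CF X).card : ℝ) := by
        rw [card_sdiff_of_subset (CF_sub X P), Nat.cast_sub (card_le_card (CF_sub X P))]
      have h4 : (0 : ℝ) ≤ ((((ZB X).filter (G P)) \ CF X).card : ℝ) := Nat.cast_nonneg _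
      have h5 : |((CF X).card : ℝ) / X - (((ZB X).filter (G P)).card : ℝ) / X| ≤ ε / 4 := by
        rw [← sub_div, abs_div, abs_of_pos hX0, div_le_iff₀ hX0, abs_sub_comm, ← h3,
          abs_of_nonneg h4]
        refine h2.trans ?_
        calc C * X / P = C / P * X := by ring
          _ ≤ ε / 4 * X := mul_le_mul_of_nonneg_right hCP hX0.le
      calc |((CF X).card : ℝ) / X - c| =
            |(((CF X).card : ℝ) / X - (((ZB X).filter (G P)).card : ℝ) / X) +
              ((((ZB X).filter (G P)).card : ℝ) / X - c)| := by congr 1; ring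
        _ ≤ ε / 4 + ε / 8 := (abs_add_le _ _).trans (add_le_add h5 h1.le)
    refine ⟨max X₀ 1, fun X hX Y hY => ?_⟩
    rw [Real.dist_eq]
    have hx := key X hX
    have hy := key Y hY
    rw [abs_sub_comm] at hy
    calc |((CF X).card : ℝ) / X - ((CF Y).card : ℝ) / Y| =
          |(((CF X).card : ℝ) / X - c) + (c - ((CF Y).card : ℝ) / Y)| := by congr 1; ring
      _ ≤ (ε / 4 + ε / 8) + (ε / 4 + ε / 8) := (abs_add_le _ _).trans (add_le_add hx hy)
      _ < ε := by linarith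
  obtain ⟨l, hl⟩ := cauchySeq_tendsto_of_complete hcau
  obtain ⟨⟨c, hc, X₀, hcnt⟩, -⟩ := den3
  refine ⟨l, ?_, ?_⟩
  · refine lt_of_lt_of_le hc (ge_of_tendsto hl ?_)
    filter_upwards [eventually_ge_atTop X₀, eventually_ge_atTop 1] with X hX hX1
    have hX0 : (0 : ℝ) < X := by exact_mod_cast hX1
    rw [le_div_iff₀ hX0, ← card_CF]
    exact hcnt X hX
  · refine hl.congr fun X => ?_
    rw [card_CF]

end Pool.Agent.N284.SM
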